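import Mathlib

set_option maxHeartbeats 400000

namespace Pool.Agent.Results.MP_ee0f4e_nt.No
open Finset

/-- A_n^{(r)} = Σ_k C(n,k)^r C(n+k,k)^r. -/
def A (r n : ℕ) : ℕ := ∑ k ∈ range (n + 1), (n.choose k) ^ r * ((n + k).choose k) ^ r

/-- c_n^{(r,s)}, obtained by solving the identities successively. -/
def c (r s n : ℕ) : ℚ :=
  ((A r n : ℚ) - ∑ k : Fin n, ((n.choose k) ^ s * ((n + k).choose k) ^ s : ℕ) * c r s k)
    / ((n + n).choose n) ^ s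
decreasing_by exact k.2

lemma spec (r s n : ℕ) :
    (A r n : ℚ) = ∑ k ∈ range (n + 1), ((n.choose k) ^ s * ((n + k).choose k) ^ s : ℕ) * c r s k := by
  rw [sum_range_succ]
  have h : (((n + n).choose n : ℕ) : ℚ) ^ s ≠ 0 := by
    have := Nat.choose_pos (Nat.le_add_right n n)
    positivity
  have h2 : c r s n = ((A r n : ℚ) - ∑ k ∈ range n,
      ((n.choose k) ^ s * ((n + k).choose k) ^ s : ℕ) * c r s k) / ((n + n).choose n) ^ s := by
    rw [c, Fin.sum_univ_eq_sum_range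
      (fun k => (((n.choose k) ^ s * ((n + k).choose k) ^ s : ℕ) : ℚ) * c r s k) n]
  rw [h2, Nat.choose_self]
  push_cast
  field_simp
  ring

def tb : List (List ℕ) := [[1, 0, 0, 0, 0, 0, 0, 0, 0], [1, 2, 0, 0, 0, 0, 0, 0, 0],
  [1, 6, 6, 0, 0, 0, 0, 0, 0], [1, 12, 30, 20, 0, 0, 0, 0, 0], [1, 20, 90, 140, 70, 0, 0, 0, 0],
  [1, 30, 210, 560, 630, 252, 0, 0, 0], [1, 42, 420, 1680, 3150, 2772, 924, 0, 0],
  [1, 56, 756, 4200, 11550, 16632, 12012, 3432, 0],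
  [1, 72, 1260, 9240, 34650, 72072, 84084, 51480, 12870]]

def x (m k : ℕ) : ℕ := (tb.getD m []).getD k 0

lemma hx : ∀ m < 9, ∀ k < 9, m.choose k * (m + k).choose k = x m k := by decide +kernel

def l1 (m : ℕ) : ℕ := [209, 1458, 313, 1458, 0, 0, 935, 0, 1].getD m 0
def l2 (m : ℕ) : ℕ := [1203, 0, 1092, 2078, 0, 1, 0, 0, 0].getD m 0

def G (l : ℕ → ℕ) (r : ℕ) : ℕ := ∑ m ∈ range 9, l m * ∑ k ∈ range 9, x m k ^ r % 2187

lemma ker1 : ∀ k < 9, 2187 ∣ ∑ m ∈ range 9, l1 m * x m k ^ 4 := by decide +kernel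
lemma ker2 : ∀ k < 9, 2187 ∣ ∑ m ∈ range 9, l2 m * x m k ^ 4 := by decide +kernel
lemma per0 : ∀ m < 9, ∀ k < 9, x m k ^ (7 + 1458) % 2187 = x m k ^ 7 % 2187 := by decide +kernel
lemma chk : ∀ t < 1460, G l1 (t + 5) % 2187 ≠ 0 ∨ G l2 (t + 5) % 2187 ≠ 0 := by decide +kernel

lemma per (l : ℕ → ℕ) (r : ℕ) (hr : 7 ≤ r) : G l (r + 1458) = G l r := by
  refine sum_congr rfl fun m hm => ?_
  congr 1
  refine sum_congr rfl fun k hk => ?_
  obtain ⟨e, rfl⟩ : ∃ e, r = 7 + e := ⟨r - 7, by omega⟩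
  rw [show 7 + e + 1458 = 7 + 1458 + e by ring, pow_add _ (7 + 1458), pow_add _ 7 e, Nat.mul_mod,
    per0 m (mem_range.1 hm) k (mem_range.1 hk), ← Nat.mul_mod]

lemma chk' (r : ℕ) (hr : 5 ≤ r) : G l1 r % 2187 ≠ 0 ∨ G l2 r % 2187 ≠ 0 := by
  induction r using Nat.strong_induction_on with
  | _ r ih =>
    by_cases h : r < 1465
    · have := chk (r - 5) (by omega)
      rwa [show r - 5 + 5 = r by omega] at this
    · obtain ⟨e, rfl⟩ : ∃ e, r = e + 1458 := ⟨r - 1458, by omega⟩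
      rw [per _ _ (by omega), per _ _ (by omega)]
      exact ih e (by omega) (by omega)

lemma ext9 (m : ℕ) (hm : m < 9) (s : ℕ) (hs : s ≠ 0) (f : ℕ → ℤ) :
    ∑ k ∈ range (m + 1), ((m.choose k) ^ s * ((m + k).choose k) ^ s : ℕ) * f k
      = ∑ k ∈ range 9, (x m k ^ s : ℕ) * f k := by
  rw [← sum_subset (range_subset_range.2 (show m + 1 ≤ 9 by omega))]
  · refine sum_congr rfl fun k hk => ?_
    rw [← mul_pow, hx m hm k (by have := mem_range.1 hk; omega)]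
  · intro k hk hk'
    rw [← hx m hm k (mem_range.1 hk), Nat.choose_eq_zero_of_lt (by simpa using hk')]
    simp [hs]

lemma zero (l : ℕ → ℕ) (hl : ∀ k < 9, 2187 ∣ ∑ m ∈ range 9, l m * x m k ^ 4) (r : ℕ) (hr : r ≠ 0)
    (z : ℕ → ℤ) (hz : ∀ k ≤ 8, c r 4 k = z k) : G l r % 2187 = 0 := by
  have h1 : ∀ m < 9, ((∑ k ∈ range 9, x m k ^ r : ℕ) : ℤ) = ∑ k ∈ range 9, (x m k ^ 4 : ℕ) * z k := by
    intro m hm
    have h2 := ext9 m hm r hr (fun _ => 1)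
    simp only [mul_one] at h2
    rw [Nat.cast_sum, ← h2, ← ext9 m hm 4 (by norm_num) z]
    have h3 := spec r 4 m
    rw [sum_congr rfl fun k hk => by rw [hz k (by have := mem_range.1 hk; omega)], A] at h3
    exact_mod_cast h3
  have h4 : (2187 : ℤ) ∣ ((∑ m ∈ range 9, l m * ∑ k ∈ range 9, x m k ^ r : ℕ) : ℤ) := by
    rw [Nat.cast_sum, sum_congr rfl fun m hm => by rw [Nat.cast_mul, h1 m (mem_range.1 hm), mul_sum],
      sum_comm]
    refine dvd_sum fun k hk => ?_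
    have h5 : (2187 : ℤ) ∣ ((∑ m ∈ range 9, l m * x m k ^ 4 : ℕ) : ℤ) := by
      exact_mod_cast hl k (mem_range.1 hk)
    have := h5.mul_right (z k)
    rw [Nat.cast_sum, sum_mul] at this
    convert this using 2
    push_cast; ring
  have h6 : 2187 ∣ ∑ m ∈ range 9, l m * ∑ k ∈ range 9, x m k ^ r := by exact_mod_cast h4
  have h7 : G l r ≡ ∑ m ∈ range 9, l m * ∑ k ∈ range 9, x m k ^ r [MOD 2187] := by
    unfold G
    rw [← ZMod.natCast_eq_natCast_iff]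
    push_cast
    simp only [ZMod.natCast_mod, Nat.cast_pow]
  rw [h7]
  exact Nat.mod_eq_zero_of_dvd h6

theorem result :
    (∀ r s n : ℕ, (A r n : ℚ)
      = ∑ k ∈ range (n + 1), ((n.choose k) ^ s * ((n + k).choose k) ^ s : ℕ) * c r s k) ∧
    (∀ r > 4, ∃ k ≤ 8, ¬ ∃ z : ℤ, c r 4 k = z) ∧
    ¬ ∀ s > 1, ∀ n : ℕ, ∃ r > s, ∀ k ≤ n, ∃ z : ℤ, c r s k = z := by
  have key : ∀ r > 4, ¬ ∀ k ≤ 8, ∃ z : ℤ, c r 4 k = z := by
    intro r hr h
    have h' : ∀ k, ∃ z : ℤ, k ≤ 8 → c r 4 k = z := fun k => by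
      by_cases hk : k ≤ 8
      · obtain ⟨z, hz⟩ := h k hk; exact ⟨z, fun _ => hz⟩
      · exact ⟨0, fun h => absurd h hk⟩
    choose z hz using h'
    rcases chk' r hr with h1 | h1
    · exact h1 (zero l1 ker1 r (by omega) z hz)
    · exact h1 (zero l2 ker2 r (by omega) z hz)
  refine ⟨spec, fun r hr => ?_, fun h => ?_⟩
  · by_contra hc
    apply key r hr
    intro k hk
    by_contra h2
    exact hc ⟨k, hk, h2⟩
  · obtain ⟨r, hr, h1⟩ := h 4 (by norm_num) 8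
    exact key r hr h1

end Pool.Agent.Results.MP_ee0f4e_nt.No
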